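import Pool.Agent.H417R2.CH.END
import Pool.Agent.H417R2.CH.MAIN
import Pool.Agent.H417R2.CH.HADD
import Pool.Agent.H417R2.CH.HLAM
import Pool.Agent.H417R2.CH.GZ
import Pool.Agent.H417R2.CH.LAP1
import Pool.Agent.H417R2.CH.LAP
import Pool.Agent.H417R2.CH.HLIP
import Pool.Agent.H417R2.CH.LIPO
import Pool.Agent.H417R2.CH.EIGA
import Pool.Agent.H417R2.CH.EIGB
import Pool.Agent.H417R2.CH.ABSM
import Pool.Agent.H417R2.CH.REGW
import Pool.Agent.H417R2.CH.SMP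
import Pool.Agent.H417R2.CH.EIGF
import Pool.Agent.H417R2.CH.EIG
import Pool.Agent.H417R2.CH.STR
import Pool.Agent.H417R2.CH.UP
import Pool.Agent.H417R2.CH.HOPF
import Pool.Agent.H417R2.CH.CAC
import Pool.Agent.H417R2.CH.EST
import Pool.Agent.H417R2.CH.WB
import Pool.Agent.H417R2.CH.VTX
import Pool.Agent.H417R2.CH.PGA
import Pool.Agent.H417R2.CH.PGB
import Pool.Agent.H417R2.CH.PLM
import Pool.Agent.H417R2.CH.GII
import Pool.Agent.H417R2.CH.GIII
import Pool.Agent.H417R2.CH.ISO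
import Pool.Agent.H417R2.CH.LINE
import Pool.Agent.H417R2.CH.CMP
import Pool.Agent.H417R2.CH.WID
import Pool.Agent.H417R2.CH.SLC
import Pool.Agent.H417R2.CH.ROT
import Pool.Agent.H417R2.CH.COA
import Pool.Agent.H417R2.CH.CI
import Pool.Agent.H417R2.CH.CII
import Pool.Agent.H417R2.CH.GOOD
import Pool.Agent.H417R2.CH.SHR
import Pool.Agent.H417R2.CH.ISOM
import Pool.Agent.H417R2.CH.REG
import Pool.Agent.H417R2.CH.BEND
import Pool.Agent.H417R2.CH.ADM
import Pool.Agent.H417R2.CH.RMP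
import Pool.Agent.H417R2.CH.HAT
import Pool.Agent.H417R2.CH.NRM
import Pool.Agent.H417R2.CH.EXB
import Pool.Agent.H417R2.CH.CPT
import Pool.Agent.H417R2.CH.ACT
import Pool.Agent.H417R2.CH.FRM
import Pool.Agent.H417R2.CH.CTB
import Pool.Agent.H417R2.CH.GRF
import Pool.Agent.H417R2.CH.GNP
import Pool.Agent.H417R2.CH.AR1
import Pool.Agent.H417R2.CH.AR2
import Pool.Agent.H417R2.CH.ARE
import Pool.Agent.H417R2.CH.SUP
import Pool.Agent.H417R2.CH.VAR
import Pool.Agent.H417R2.CH.ALM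
import Pool.Agent.H417R2.CH.LOW
import Pool.Agent.H417R2.CH.EXT
import Pool.Agent.H417R2.CH.CHV
import Pool.Agent.H417R2.CH.TRN
import Pool.Agent.H417R2.CH.BLM

/-!
MP_70c477_an, Q2: every planar convex set minimising `λ₁ / h²` is a polygon.
-/

set_option autoImplicit false

namespace Pool.Agent.Results.MP_70c477_an.OptimalSetsArePolygons

open Pool.Agent.H417R2.CH

/-- Every optimal set of the quotient `λ₁(Ω) / h(Ω)²` among planar convex sets is a polygon. -/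
theorem result : ∀ U : Set V, IsOptimal U → IsPolygon U := by
  have hLAP : S_LAP := t_LAP t_LAP1 t_GZ
  have hHLIP : S_HLIP := t_HLIP hLAP
  have hLIPO : S_LIPO := t_LIPO hLAP
  have hEIGB : S_EIGB := t_EIGB t_HADD t_HLAM
  have hABSM : S_ABSM := t_ABSM t_HADD t_HLAM hHLIP t_GZ
  have hEIG : S_EIG := t_EIG t_HADD t_HLAM t_EIGA hEIGB hABSM t_REGW t_SMP t_EIGF
  have hSTR : S_STR := t_STR t_HADD t_HLAM hEIG hEIGB t_REGW t_SMP
  have hCAC : S_CAC2 := t_CAC2 hHLIP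
  have hEST : S_EST := t_EST hCAC t_UP
  have hPGB : S_PGB := t_PGB t_VTX
  have hGII : S_GII := t_GII t_PGA t_PLM
  have hGIII : S_GIII := t_GIII hPGB t_PLM
  have hISO : S_ISO := t_ISO hGII t_WB
  have hSLC : S_SLC := t_SLC t_LINE
  have hCOA : S_COA := t_COA t_CMP t_WID hSLC t_ROT
  have hCI : S_CI := t_CI hCOA hISO
  have hCII : S_CII := t_CII hLIPO hGII hGIII t_WB
  have hGOOD : S_GOOD := t_GOOD hCI hCII
  have hSHR : S_SHR := t_SHR hGII t_WB
  have hHAT : S_HAT := t_HAT t_RMP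
  have hNRM : S_NRM := t_NRM t_REG
  have hEXB : S_EXB := t_EXB t_BEND
  have hCPT : S_CPT := t_CPT t_ADM
  have hACT : S_ACT := t_ACT hSTR t_ADM hHAT t_ISOM t_REG hNRM hEXB hCPT
  have hFRM : S_FRM := t_FRM hACT t_ISOM t_REG hNRM hEXB
  have hGNP : S_GNP := t_GNP t_CTB
  have hAR1 : S_AR1 := t_AR1 t_ADM
  have hAR2 : S_AR2 := t_AR2 t_ADM t_GRF t_CTB
  have hARE : S_ARE := t_ARE hAR1 hAR2
  have hVAR : S_VAR := t_VAR t_HADD t_HLAM
  have hALM : S_ALM := t_ALM t_HOPF hHLIP hVAR t_ADM t_REG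
  have hLOW : S_LOW := t_LOW hALM hARE t_GRF t_CTB hHAT t_ADM hEIG t_REG
  have hTRN : S_TRN := t_TRN hHLIP t_HLAM t_ADM t_REG t_CHV
  have hBLM : S_BLM := t_BLM t_EXT hTRN hEST t_ADM hEIG t_REG
  have hMAIN : S_MAIN := t_MAIN hEIG hHAT t_ADM t_REG hLOW hBLM hGNP t_GRF t_CTB hARE t_SUP hSHR
  exact t_END hGOOD hFRM hMAIN

end Pool.Agent.Results.MP_70c477_an.OptimalSetsArePolygons
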